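import Pool.Agent.Y317.K.Alg1

/-!
# Ideals which are stable under translations and an elliptic substitution: conclusion
-/

set_option autoImplicit false

open MvPolynomial

namespace Pool.Agent.Y317.K

section two

variable {A : Type} [CommRing A] [Algebra ℂ A]

/-- the derivative of the translations -/
lemma val1 (T : ℂ) (f : A →ₐ[ℂ] ℂ) (u : Fin 4 → ℂ) (Q : MvPolynomial (Fin 4) A)
    (h : ∀ c, eval₂ (f : A →+* ℂ) (nt0 T c u) Q = 0) :
    eval₂ (f : A →+* ℂ) u (dd (q1 A T) Q) = 0 := by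
  have hg : ∀ i, HasDerivAt (fun c => nt0 T c u i) ((![-T, 1, 0, 0] : Fin 4 → ℂ) i) 0 := by
    intro i
    fin_cases i
    · show HasDerivAt (fun c => u 0 - T * c) (-T) 0
      have := ((hasDerivAt_id (0 : ℂ)).const_mul T).const_sub (u 0)
      simpa using this
    · show HasDerivAt (fun c => u 1 + c) 1 0
      exact (hasDerivAt_id (0 : ℂ)).const_add (u 1)
    · exact hasDerivAt_const _ _
    · exact hasDerivAt_const _ _
  have h1 := chain (f : A →+* ℂ) (fun c => nt0 T c u) _ 0 hg Q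
  have h2 : (fun c => eval₂ (f : A →+* ℂ) (nt0 T c u) Q) = fun _ => 0 := by
    funext c
    exact h c
  rw [h2] at h1
  have h3 := h1.unique (hasDerivAt_const (0 : ℂ) (0 : ℂ))
  have h4 : nt0 T 0 u = u := by
    funext i
    fin_cases i <;> simp [nt0]
  rw [h4, Fin.sum_univ_four] at h3
  have h5 : -T * eval₂ (f : A →+* ℂ) u (pderiv 0 Q) + 1 * eval₂ (f : A →+* ℂ) u (pderiv 1 Q) +
    0 * eval₂ (f : A →+* ℂ) u (pderiv 2 Q) + 0 * eval₂ (f : A →+* ℂ) u (pderiv 3 Q) = 0 := h3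
  rw [dd_apply, Fin.sum_univ_four]
  show eval₂ (f : A →+* ℂ) u (-kk A T * pderiv 0 Q + 1 * pderiv 1 Q + 0 * pderiv 2 Q +
    0 * pderiv 3 Q) = 0
  rw [zero_mul, zero_mul, add_zero, add_zero, one_mul, eval₂_add, eval₂_mul, eval₂_neg, kk_eval]
  linear_combination h5

lemma der_lin (z : ℂ) : HasDerivAt (fun c : ℂ => 1 - c * z) (-z) 0 := by
  have := ((hasDerivAt_id (0 : ℂ)).mul_const z).const_sub 1
  simpa using this

lemma der_b (z : ℂ) : HasDerivAt (fun c : ℂ => z / (1 - c * z)) (z ^ 2) 0 := by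
  have h5 := (hasDerivAt_const (0 : ℂ) z).fun_div (der_lin z) (by simp)
  refine h5.congr_deriv ?_
  simp
  ring

lemma der_c (z w : ℂ) : HasDerivAt (fun c : ℂ => (1 - c * z) ^ 2 * w) (-2 * z * w) 0 := by
  have h5 := ((der_lin z).fun_pow 2).mul_const w
  refine h5.congr_deriv ?_
  simp

lemma der_d (z w t : ℂ) : HasDerivAt (fun c : ℂ => (1 - c * z) ^ 4 * t -
    2 * c * (1 - c * z) ^ 3 * w) (-4 * z * t - 2 * w) 0 := by
  have h5 := ((der_lin z).fun_pow 4).mul_const t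
  have h6 : HasDerivAt (fun c : ℂ => 2 * c) 2 0 := by
    have := (hasDerivAt_id (0 : ℂ)).const_mul 2
    simpa using this
  have h7 := ((h6.fun_mul ((der_lin z).fun_pow 3)).mul_const w)
  refine (h5.fun_sub h7).congr_deriv ?_
  simp

/-- the derivative of the conjugated translations -/
lemma val2 (T : ℂ) (f : A →ₐ[ℂ] ℂ) (u : Fin 4 → ℂ) (Q : MvPolynomial (Fin 4) A)
    (h : ∀ c : ℂ, 1 - c * u 1 ≠ 0 → eval₂ (f : A →+* ℂ) ![u 0 - T * c, u 1 / (1 - c * u 1),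
      (1 - c * u 1) ^ 2 * u 2, (1 - c * u 1) ^ 4 * u 3 - 2 * c * (1 - c * u 1) ^ 3 * u 2] Q = 0) :
    eval₂ (f : A →+* ℂ) u (dd (q2 A T) Q) = 0 := by
  obtain ⟨g, hgd⟩ : ∃ g : ℂ → Fin 4 → ℂ, g = fun c => ![u 0 - T * c, u 1 / (1 - c * u 1),
      (1 - c * u 1) ^ 2 * u 2, (1 - c * u 1) ^ 4 * u 3 - 2 * c * (1 - c * u 1) ^ 3 * u 2] :=
    ⟨_, rfl⟩
  have hg : ∀ i, HasDerivAt (fun c => g c i)
      ((![-T, u 1 ^ 2, -2 * u 1 * u 2, -4 * u 1 * u 3 - 2 * u 2] : Fin 4 → ℂ) i) 0 := by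
    intro i
    rw [hgd]
    fin_cases i
    · show HasDerivAt (fun c => u 0 - T * c) (-T) 0
      have := ((hasDerivAt_id (0 : ℂ)).const_mul T).const_sub (u 0)
      simpa using this
    · exact der_b _
    · exact der_c _ _
    · exact der_d _ _ _
  have h1 := chain (f : A →+* ℂ) g _ 0 hg Q
  have h2 : (fun c => eval₂ (f : A →+* ℂ) (g c) Q) =ᶠ[nhds 0] fun _ => 0 := by
    have h5 : ∀ᶠ c : ℂ in nhds 0, 1 - c * u 1 ≠ 0 :=
      (der_lin (u 1)).continuousAt.eventually_ne (by simp)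
    filter_upwards [h5] with c hc
    rw [hgd]
    exact h c hc
  have h3 := (h1.congr_of_eventuallyEq h2.symm).unique (hasDerivAt_const (0 : ℂ) (0 : ℂ))
  have h4 : g 0 = u := by
    rw [hgd]
    funext i
    fin_cases i <;> simp
  rw [h4, Fin.sum_univ_four] at h3
  have h5 : -T * eval₂ (f : A →+* ℂ) u (pderiv 0 Q) +
    u 1 ^ 2 * eval₂ (f : A →+* ℂ) u (pderiv 1 Q) +
    (-2 * u 1 * u 2) * eval₂ (f : A →+* ℂ) u (pderiv 2 Q) +
    (-4 * u 1 * u 3 - 2 * u 2) * eval₂ (f : A →+* ℂ) u (pderiv 3 Q) = 0 := h3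
  rw [dd_apply, Fin.sum_univ_four]
  show eval₂ (f : A →+* ℂ) u (-kk A T * pderiv 0 Q + X 1 ^ 2 * pderiv 1 Q +
    (-2 * X 1 * X 2) * pderiv 2 Q + -(4 * X 1 * X 3 + 2 * X 2) * pderiv 3 Q) = 0
  simp only [eval₂_add, eval₂_mul, eval₂_neg, eval₂_pow, eval₂_X, kk_eval, eval_two, eval_four]
  linear_combination h5

/-- translates of a polynomial -/
lemma exists_translate (T c : ℂ) (Q : MvPolynomial (Fin 4) A) :
    ∃ Qc : MvPolynomial (Fin 4) A, ∀ (f : A →ₐ[ℂ] ℂ) (v : Fin 4 → ℂ),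
      eval₂ (f : A →+* ℂ) v Qc = eval₂ (f : A →+* ℂ) (nt0 T c v) Q := by
  refine ⟨bind₁ (![X 0 - kk A (T * c), X 1 + kk A c, X 2, X 3] : Fin 4 → MvPolynomial (Fin 4) A) Q,
    fun f v => ?_⟩
  have h5 := MvPolynomial.eval₂Hom_bind₁ (f : A →+* ℂ) v
    (![X 0 - kk A (T * c), X 1 + kk A c, X 2, X 3] : Fin 4 → MvPolynomial (Fin 4) A) Q
  refine h5.trans ?_
  rw [coe_eval₂Hom]
  congr 1
  funext i
  fin_cases i
  · show eval₂ (f : A →+* ℂ) v (X 0 - kk A (T * c)) = v 0 - T * c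
    rw [eval₂_sub, kk_eval, eval₂_X]
  · show eval₂ (f : A →+* ℂ) v (X 1 + kk A c) = v 1 + c
    rw [eval₂_add, kk_eval, eval₂_X]
  · exact eval₂_X _ _ _
  · exact eval₂_X _ _ _

end two

theorem alg {T : ℂ} (hT : T ≠ 0) (I A : Type) [CommRing A] [Algebra ℂ A] (e : I → A →ₐ[ℂ] ℂ)
    (cu : I → Fin 4 → ℂ) (a : ℂ) (hcu : ∀ x, cu x 1 ≠ 0 ∧ cu x 1 ≠ a ∧ cu x 2 ≠ 0)
    (H : ∀ Q : MvPolynomial (Fin 4) A, (∀ x, eval₂ (e x : A →+* ℂ) (cu x) Q = 0) → ∀ x,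
      (∀ c : ℂ, eval₂ (e x : A →+* ℂ) (nt0 T c (cu x)) Q = 0) ∧
      eval₂ (e x : A →+* ℂ) (mo0 a (cu x)) Q = 0 ∧ eval₂ (e x : A →+* ℂ) (mo1 a (cu x)) Q = 0) :
    ∀ Q : MvPolynomial (Fin 4) A, (∀ x, eval₂ (e x : A →+* ℂ) (cu x) Q = 0) →
      ∀ x v, eval₂ (e x : A →+* ℂ) v Q = 0 := by
  obtain ⟨I0, hI0⟩ : ∃ I0 : Set (MvPolynomial (Fin 4) A),
      I0 = {Q | ∀ x, eval₂ (e x : A →+* ℂ) (cu x) Q = 0} := ⟨_, rfl⟩
  have hI : ∀ Q, Q ∈ I0 ↔ ∀ x, eval₂ (e x : A →+* ℂ) (cu x) Q = 0 := fun Q => by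
    rw [hI0]
    exact Iff.rfl
  have hadd : ∀ p ∈ I0, ∀ q ∈ I0, p + q ∈ I0 := by
    intro p hp q hq
    rw [hI] at *
    intro x
    rw [eval₂_add, hp x, hq x, add_zero]
  have hmul : ∀ p, ∀ q ∈ I0, p * q ∈ I0 := by
    intro p q hq
    rw [hI] at *
    intro x
    rw [eval₂_mul, hq x, mul_zero]
  have h0 : (0 : MvPolynomial (Fin 4) A) ∈ I0 := by
    rw [hI]
    intro x
    exact eval₂_zero _ _
  have hcancel : ∀ q, X 2 * q ∈ I0 → q ∈ I0 := by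
    intro q hq
    rw [hI] at *
    intro x
    have h1 := hq x
    rw [eval₂_mul, eval₂_X] at h1
    exact (mul_eq_zero.1 h1).resolve_left (hcu x).2.2
  have s1 : ∀ Q ∈ I0, dd (q1 A T) Q ∈ I0 := by
    intro Q hQ
    rw [hI] at *
    intro x
    exact val1 T (e x) (cu x) Q (H Q hQ x).1
  have s2 : ∀ Q ∈ I0, dd (q2 A T) Q ∈ I0 := by
    intro Q hQ
    rw [hI] at *
    intro x
    refine val2 T (e x) (cu x) Q fun c hc => ?_
    obtain ⟨hz0, hza, -⟩ := hcu x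
    obtain ⟨M, Q', hQ'⟩ := exists_clear a Q
    have hQ'I : ∀ y, eval₂ (e y : A →+* ℂ) (cu y) Q' = 0 := by
      intro y
      rw [hQ' (e y) (cu y) (hcu y).2.1, (H Q hQ y).2.2, mul_zero]
    obtain ⟨Qc, hQc⟩ := exists_translate T c Q'
    have hQcI : ∀ y, eval₂ (e y : A →+* ℂ) (cu y) Qc = 0 := by
      intro y
      rw [hQc]
      exact (H Q' hQ'I y).1 c
    have h6 := (H Qc hQcI x).2.1
    rw [hQc] at h6
    have h7 : a - nt0 T c (mo0 a (cu x)) 1 = (1 - c * cu x 1) / cu x 1 := by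
      show a - (a - 1 / cu x 1 + c) = _
      field_simp
      ring
    have h8 : a - nt0 T c (mo0 a (cu x)) 1 ≠ 0 := by
      rw [h7]
      exact div_ne_zero hc hz0
    rw [hQ' (e x) _ (sub_ne_zero.1 h8).symm] at h6
    rw [← comp_eq (T := T) (a := a) hz0 hc]
    exact (mul_eq_zero.1 h6).resolve_left (pow_ne_zero _ h8)
  have hall := all_stable hT I0 hadd hmul hcancel s1 s2
  intro Q hQ x v
  exact taylor (e x) (cu x) I0 h0 hadd hmul hall (fun P hP => (hI P).1 hP x) Q ((hI Q).2 hQ) v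

end Pool.Agent.Y317.K
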