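import Pool.Agent.Y120.K.Defs
import Pool.Agent.Y317.K.Alg2

/-!
# The algebraic part: `T_ALG`
-/

set_option autoImplicit false

namespace Pool.Agent.Y317.K

open Pool.Agent.Y120.J Pool.Agent.Y120.K

theorem t_alg : T_ALG := by
  intro I A _ _ e cu a hcu H
  have hT : (tpi : ℂ) ≠ 0 := by
    unfold tpi
    exact Complex.two_pi_I_ne_zero
  exact alg hT I A e cu a hcu H

end Pool.Agent.Y317.K
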