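import Mathlib

/-!
# Ideals which are stable under translations and an elliptic substitution

The algebraic part of project JK (helper120): an ideal of polynomials in four variables, defined
by the points of a curve, which is stable under the translations `nt c` and under the
substitutions `mo a`, `mo' a` is zero.
-/

set_option autoImplicit false

open MvPolynomial

namespace Pool.Agent.Y317.K

/-- the translation -/
noncomputable def nt0 (T c : ℂ) (v : Fin 4 → ℂ) : Fin 4 → ℂ := ![v 0 - T * c, v 1 + c, v 2, v 3]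

/-- the substitution `z ↦ a - 1 / z` -/
noncomputable def mo0 (a : ℂ) (v : Fin 4 → ℂ) : Fin 4 → ℂ :=
  ![v 0, a - 1 / v 1, v 1 ^ 2 * v 2, v 1 ^ 4 * v 3 + 2 * v 1 ^ 3 * v 2]

/-- the inverse substitution -/
noncomputable def mo1 (a : ℂ) (v : Fin 4 → ℂ) : Fin 4 → ℂ :=
  ![v 0, 1 / (a - v 1), (a - v 1) ^ 2 * v 2, (a - v 1) ^ 4 * v 3 - 2 * (a - v 1) ^ 3 * v 2]

section chain

variable {A : Type} [CommRing A]

/-- the chain rule along a curve -/
lemma chain (f : A →+* ℂ) (g : ℂ → Fin 4 → ℂ) (g' : Fin 4 → ℂ) (c0 : ℂ)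
    (hg : ∀ i, HasDerivAt (fun c => g c i) (g' i) c0) (Q : MvPolynomial (Fin 4) A) :
    HasDerivAt (fun c => eval₂ f (g c) Q) (∑ i, g' i * eval₂ f (g c0) (pderiv i Q)) c0 := by
  induction Q using MvPolynomial.induction_on with
  | C b =>
    simp only [eval₂_C, pderiv_C, eval₂_zero, mul_zero, Finset.sum_const_zero]
    exact hasDerivAt_const _ _
  | add p q hp hq =>
    simp only [eval₂_add, map_add, mul_add, Finset.sum_add_distrib]
    exact hp.add hq
  | mul_X p j hp =>
    have h := hp.mul (hg j)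
    have h1 : ∑ i, g' i * eval₂ f (g c0) (pderiv i (p * X j)) =
        (∑ i, g' i * eval₂ f (g c0) (pderiv i p)) * g c0 j + eval₂ f (g c0) p * g' j := by
      have h2 : ∀ i, g' i * eval₂ f (g c0) (pderiv i (p * X j)) =
          g' i * eval₂ f (g c0) (pderiv i p) * g c0 j +
            if i = j then eval₂ f (g c0) p * g' j else 0 := by
        intro i
        rw [pderiv_mul, eval₂_add, eval₂_mul, eval₂_mul, eval₂_X]
        by_cases hij : i = j
        · subst hij
          rw [pderiv_X_self, eval₂_one, if_pos rfl]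
          ring
        · rw [pderiv_X_of_ne (Ne.symm hij), eval₂_zero, if_neg hij]
          ring
      rw [Finset.sum_congr rfl fun i _ => h2 i, Finset.sum_add_distrib, Finset.sum_ite_eq',
        if_pos (Finset.mem_univ _), Finset.sum_mul]
    rw [h1]
    simp only [eval₂_mul, eval₂_X]
    exact h

/-- the restriction to a line -/
noncomputable def ln (f : A →+* ℂ) (u w : Fin 4 → ℂ) (Q : MvPolynomial (Fin 4) A) :
    Polynomial ℂ :=
  eval₂ (Polynomial.C.comp f) (fun i => Polynomial.C (u i) + Polynomial.C (w i) * Polynomial.X) Q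

lemma ln_derivative (f : A →+* ℂ) (u w : Fin 4 → ℂ) (Q : MvPolynomial (Fin 4) A) :
    Polynomial.derivative (ln f u w Q) = ∑ i, Polynomial.C (w i) * ln f u w (pderiv i Q) := by
  induction Q using MvPolynomial.induction_on with
  | C b =>
    simp only [ln, eval₂_C, pderiv_C, eval₂_zero, mul_zero, Finset.sum_const_zero,
      RingHom.comp_apply, Polynomial.derivative_C]
  | add p q hp hq =>
    simp only [ln, eval₂_add, map_add, mul_add, Finset.sum_add_distrib] at hp hq ⊢
    rw [hp, hq]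
  | mul_X p j hp =>
    have h0 : ln f u w (p * X j) =
        ln f u w p * (Polynomial.C (u j) + Polynomial.C (w j) * Polynomial.X) := by
      simp only [ln, eval₂_mul, eval₂_X]
    have h1 : ∑ i, Polynomial.C (w i) * ln f u w (pderiv i (p * X j)) =
        (∑ i, Polynomial.C (w i) * ln f u w (pderiv i p)) *
          (Polynomial.C (u j) + Polynomial.C (w j) * Polynomial.X) +
          ln f u w p * Polynomial.C (w j) := by
      have h2 : ∀ i, Polynomial.C (w i) * ln f u w (pderiv i (p * X j)) =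
          Polynomial.C (w i) * ln f u w (pderiv i p) *
            (Polynomial.C (u j) + Polynomial.C (w j) * Polynomial.X) +
            if i = j then ln f u w p * Polynomial.C (w j) else 0 := by
        intro i
        simp only [ln]
        rw [pderiv_mul, eval₂_add, eval₂_mul, eval₂_mul, eval₂_X]
        by_cases hij : i = j
        · subst hij
          rw [pderiv_X_self, eval₂_one, if_pos rfl]
          ring
        · rw [pderiv_X_of_ne (Ne.symm hij), eval₂_zero, if_neg hij]
          ring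
      rw [Finset.sum_congr rfl fun i _ => h2 i, Finset.sum_add_distrib, Finset.sum_ite_eq',
        if_pos (Finset.mem_univ _), Finset.sum_mul]
    rw [h0, h1, Polynomial.derivative_mul, hp]
    simp only [map_add, Polynomial.derivative_C, Polynomial.derivative_mul,
      Polynomial.derivative_X, zero_mul, zero_add, mul_one]

lemma ln_eval (f : A →+* ℂ) (u w : Fin 4 → ℂ) (c : ℂ) (Q : MvPolynomial (Fin 4) A) :
    (ln f u w Q).eval c = eval₂ f (fun i => u i + w i * c) Q := by
  have h1 := MvPolynomial.hom_eval₂ Q (Polynomial.C.comp f) (Polynomial.evalRingHom c)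
    (fun i => Polynomial.C (u i) + Polynomial.C (w i) * Polynomial.X)
  refine h1.trans ?_
  congr 1
  · ext b
    simp
  · funext i
    simp

/-- clearing denominators in the inverse substitution -/
lemma exists_clear [Algebra ℂ A] (a : ℂ) (Q : MvPolynomial (Fin 4) A) :
    ∃ (M : ℕ) (Q' : MvPolynomial (Fin 4) A), ∀ (f : A →ₐ[ℂ] ℂ) (v : Fin 4 → ℂ), v 1 ≠ a →
      eval₂ (f : A →+* ℂ) v Q' = (a - v 1) ^ M * eval₂ (f : A →+* ℂ) (mo1 a v) Q := by
  have hA : ∀ (f : A →ₐ[ℂ] ℂ) (v : Fin 4 → ℂ) (n : ℕ),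
      eval₂ (f : A →+* ℂ) v ((C (algebraMap ℂ A a) - X 1) ^ n) = (a - v 1) ^ n := by
    intro f v n
    rw [eval₂_pow, eval₂_sub, eval₂_C, eval₂_X, RingHom.coe_coe, AlgHom.commutes]
    rfl
  induction Q using MvPolynomial.induction_on with
  | C b =>
    refine ⟨0, C b, fun f v _ => ?_⟩
    rw [eval₂_C, eval₂_C, pow_zero, one_mul]
  | add p q hp hq =>
    obtain ⟨M, p', hp⟩ := hp
    obtain ⟨N, q', hq⟩ := hq
    refine ⟨M + N, (C (algebraMap ℂ A a) - X 1) ^ N * p' + (C (algebraMap ℂ A a) - X 1) ^ M * q',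
      fun f v hv => ?_⟩
    rw [eval₂_add, eval₂_mul, eval₂_mul, hA, hA, hp f v hv, hq f v hv, eval₂_add]
    ring
  | mul_X p j hp =>
    obtain ⟨M, p', hp⟩ := hp
    let R : Fin 4 → MvPolynomial (Fin 4) A :=
      ![(C (algebraMap ℂ A a) - X 1) ^ 1 * X 0, 1, (C (algebraMap ℂ A a) - X 1) ^ 3 * X 2,
        (C (algebraMap ℂ A a) - X 1) ^ 5 * X 3 - 2 * (C (algebraMap ℂ A a) - X 1) ^ 4 * X 2]
    refine ⟨M + 1, p' * R j, fun f v hv => ?_⟩
    have hv' : a - v 1 ≠ 0 := sub_ne_zero.2 hv.symm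
    have hR : eval₂ (f : A →+* ℂ) v (R j) = (a - v 1) * mo1 a v j := by
      have h2 : eval₂ (f : A →+* ℂ) v (2 : MvPolynomial (Fin 4) A) = 2 := by
        have := eval₂_natCast (f : A →+* ℂ) v 2
        exact_mod_cast this
      fin_cases j
      · show eval₂ (f : A →+* ℂ) v ((C (algebraMap ℂ A a) - X 1) ^ 1 * X 0) = (a - v 1) * v 0
        rw [eval₂_mul, hA, eval₂_X, pow_one]
      · show eval₂ (f : A →+* ℂ) v 1 = (a - v 1) * (1 / (a - v 1))
        rw [eval₂_one]
        field_simp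
      · show eval₂ (f : A →+* ℂ) v ((C (algebraMap ℂ A a) - X 1) ^ 3 * X 2) =
          (a - v 1) * ((a - v 1) ^ 2 * v 2)
        rw [eval₂_mul, hA, eval₂_X]
        ring
      · show eval₂ (f : A →+* ℂ) v ((C (algebraMap ℂ A a) - X 1) ^ 5 * X 3 -
          2 * (C (algebraMap ℂ A a) - X 1) ^ 4 * X 2) =
          (a - v 1) * ((a - v 1) ^ 4 * v 3 - 2 * (a - v 1) ^ 3 * v 2)
        rw [eval₂_sub, eval₂_mul, eval₂_mul, eval₂_mul, hA, hA, eval₂_X, eval₂_X, h2]
        ring
    rw [eval₂_mul, hp f v hv, hR, eval₂_mul, eval₂_X]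
    ring

end chain

/-- the composition of the substitutions -/
lemma comp_eq {T a c : ℂ} {v : Fin 4 → ℂ} (h1 : v 1 ≠ 0) (h2 : 1 - c * v 1 ≠ 0) :
    mo1 a (nt0 T c (mo0 a v)) = ![v 0 - T * c, v 1 / (1 - c * v 1), (1 - c * v 1) ^ 2 * v 2,
      (1 - c * v 1) ^ 4 * v 3 - 2 * c * (1 - c * v 1) ^ 3 * v 2] := by
  have h3 : a - (a - 1 / v 1 + c) = (1 - c * v 1) / v 1 := by
    field_simp
    ring
  funext i
  fin_cases i
  · rfl
  · show 1 / (a - (a - 1 / v 1 + c)) = v 1 / (1 - c * v 1)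
    rw [h3, one_div_div]
  · show (a - (a - 1 / v 1 + c)) ^ 2 * (v 1 ^ 2 * v 2) = (1 - c * v 1) ^ 2 * v 2
    rw [h3]
    field_simp
  · show (a - (a - 1 / v 1 + c)) ^ 4 * (v 1 ^ 4 * v 3 + 2 * v 1 ^ 3 * v 2) -
      2 * (a - (a - 1 / v 1 + c)) ^ 3 * (v 1 ^ 2 * v 2) =
      (1 - c * v 1) ^ 4 * v 3 - 2 * c * (1 - c * v 1) ^ 3 * v 2
    rw [h3]
    field_simp
    ring

end Pool.Agent.Y317.K
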