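import Pool.Agent.Y317.K.Alg0

/-!
# Ideals which are stable under translations and an elliptic substitution: derivations
-/

set_option autoImplicit false

open MvPolynomial

namespace Pool.Agent.Y317.K

section der

variable {A : Type} [CommRing A] [Algebra ℂ A]

/-- constants -/
noncomputable def kk (A : Type) [CommRing A] [Algebra ℂ A] (c : ℂ) : MvPolynomial (Fin 4) A :=
  C (algebraMap ℂ A c)

lemma kk_eval (f : A →ₐ[ℂ] ℂ) (v : Fin 4 → ℂ) (c : ℂ) : eval₂ (f : A →+* ℂ) v (kk A c) = c := by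
  rw [kk, eval₂_C, RingHom.coe_coe, AlgHom.commutes]
  rfl

lemma kk_mul (c d : ℂ) : kk A (c * d) = kk A c * kk A d := by
  unfold kk
  rw [map_mul, map_mul]

lemma kk_one : kk A 1 = 1 := by
  unfold kk
  rw [map_one, map_one]

lemma kk_two : kk A 2 = 2 := by
  unfold kk
  rw [map_ofNat, map_ofNat]

lemma eval_two (f : A →ₐ[ℂ] ℂ) (v : Fin 4 → ℂ) :
    eval₂ (f : A →+* ℂ) v (2 : MvPolynomial (Fin 4) A) = 2 := by
  rw [← kk_two, kk_eval]

lemma eval_four (f : A →ₐ[ℂ] ℂ) (v : Fin 4 → ℂ) :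
    eval₂ (f : A →+* ℂ) v (4 : MvPolynomial (Fin 4) A) = 4 := by
  have h : (4 : MvPolynomial (Fin 4) A) = 2 * 2 := by norm_num
  rw [h, eval₂_mul, eval_two]
  norm_num

/-- a derivation with given coefficients -/
noncomputable def dd (q : Fin 4 → MvPolynomial (Fin 4) A) :
    Derivation A (MvPolynomial (Fin 4) A) (MvPolynomial (Fin 4) A) :=
  mkDerivation A q

lemma dd_apply (q : Fin 4 → MvPolynomial (Fin 4) A) (Q : MvPolynomial (Fin 4) A) :
    dd q Q = ∑ i, q i * pderiv i Q := by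
  have h : dd q = q 0 • pderiv 0 + q 1 • pderiv 1 + q 2 • pderiv 2 + q 3 • pderiv 3 := by
    apply MvPolynomial.derivation_ext
    intro i
    rw [dd, mkDerivation_X]
    simp only [Derivation.add_apply, Derivation.smul_apply, smul_eq_mul, pderiv_X]
    fin_cases i <;> simp [Pi.single_apply]
  rw [h, Fin.sum_univ_four]
  rfl

lemma dd_X (q : Fin 4 → MvPolynomial (Fin 4) A) (i : Fin 4) : dd q (X i) = q i :=
  mkDerivation_X _ _ _

/-- the bracket -/
lemma dd_bracket (p q r : Fin 4 → MvPolynomial (Fin 4) A)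
    (h : ∀ i, dd p (q i) - dd q (p i) = r i) (Q : MvPolynomial (Fin 4) A) :
    dd p (dd q Q) - dd q (dd p Q) = dd r Q := by
  have h1 : ⁅dd p, dd q⁆ = dd r := by
    apply MvPolynomial.derivation_ext
    intro i
    rw [Derivation.commutator_apply, dd_X, dd_X, dd_X, h]
  rw [← h1, Derivation.commutator_apply]

/-- first operator -/
noncomputable def q1 (A : Type) [CommRing A] [Algebra ℂ A] (T : ℂ) :
    Fin 4 → MvPolynomial (Fin 4) A := ![-kk A T, 1, 0, 0]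

/-- second operator -/
noncomputable def q2 (A : Type) [CommRing A] [Algebra ℂ A] (T : ℂ) :
    Fin 4 → MvPolynomial (Fin 4) A :=
  ![-kk A T, X 1 ^ 2, -2 * X 1 * X 2, -(4 * X 1 * X 3 + 2 * X 2)]

/-- their bracket -/
noncomputable def q3 (A : Type) [CommRing A] : Fin 4 → MvPolynomial (Fin 4) A :=
  ![0, 2 * X 1, -2 * X 2, -4 * X 3]

/-- the second bracket -/
noncomputable def q4 (A : Type) [CommRing A] : Fin 4 → MvPolynomial (Fin 4) A := ![0, 2, 0, 0]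

lemma dd_kk (q : Fin 4 → MvPolynomial (Fin 4) A) (c : ℂ) : dd q (kk A c) = 0 := by
  unfold kk
  rw [← MvPolynomial.algebraMap_eq, Derivation.map_algebraMap]

lemma dd_two (q : Fin 4 → MvPolynomial (Fin 4) A) : dd q (2 : MvPolynomial (Fin 4) A) = 0 := by
  rw [← kk_two, dd_kk]

lemma dd_four (q : Fin 4 → MvPolynomial (Fin 4) A) : dd q (4 : MvPolynomial (Fin 4) A) = 0 := by
  have h : (4 : MvPolynomial (Fin 4) A) = 2 * 2 := by norm_num
  rw [h, Derivation.leibniz, dd_two, smul_zero, add_zero]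

lemma br3 (T : ℂ) (i : Fin 4) : dd (q1 A T) (q2 A T i) - dd (q2 A T) (q1 A T i) = q3 A i := by
  fin_cases i
  · show dd (q1 A T) (-kk A T) - dd (q2 A T) (-kk A T) = 0
    rw [map_neg, map_neg, dd_kk, dd_kk, sub_self]
  · show dd (q1 A T) (X 1 ^ 2) - dd (q2 A T) 1 = 2 * X 1
    rw [Derivation.map_one_eq_zero, sub_zero, pow_two, Derivation.leibniz, dd_X]
    show X 1 • (1 : MvPolynomial (Fin 4) A) + X 1 • (1 : MvPolynomial (Fin 4) A) = 2 * X 1
    rw [smul_eq_mul]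
    ring
  · show dd (q1 A T) (-2 * X 1 * X 2) - dd (q2 A T) 0 = -2 * X 2
    rw [map_zero, sub_zero, Derivation.leibniz, Derivation.leibniz, dd_X, dd_X, map_neg, dd_two]
    show (-2 * X 1 : MvPolynomial (Fin 4) A) • (0 : MvPolynomial (Fin 4) A) +
      X 2 • ((-2 : MvPolynomial (Fin 4) A) • (1 : MvPolynomial (Fin 4) A) + X 1 • -0) = -2 * X 2
    simp only [smul_eq_mul]
    ring
  · show dd (q1 A T) (-(4 * X 1 * X 3 + 2 * X 2)) - dd (q2 A T) 0 = -4 * X 3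
    rw [map_zero, sub_zero, map_neg, map_add, Derivation.leibniz, Derivation.leibniz,
      Derivation.leibniz, dd_X, dd_X, dd_X, dd_two, dd_four]
    show -((4 * X 1 : MvPolynomial (Fin 4) A) • (0 : MvPolynomial (Fin 4) A) +
      X 3 • ((4 : MvPolynomial (Fin 4) A) • (1 : MvPolynomial (Fin 4) A) + X 1 • 0) +
      ((2 : MvPolynomial (Fin 4) A) • (0 : MvPolynomial (Fin 4) A) + X 2 • 0)) = -4 * X 3
    simp only [smul_eq_mul]
    ring

lemma br4 (T : ℂ) (i : Fin 4) : dd (q1 A T) (q3 A i) - dd (q3 A) (q1 A T i) = q4 A i := by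
  fin_cases i
  · show dd (q1 A T) 0 - dd (q3 A) (-kk A T) = 0
    rw [map_zero, map_neg, dd_kk, neg_zero, sub_self]
  · show dd (q1 A T) (2 * X 1) - dd (q3 A) 1 = 2
    rw [Derivation.map_one_eq_zero, sub_zero, Derivation.leibniz, dd_X, dd_two]
    show (2 : MvPolynomial (Fin 4) A) • (1 : MvPolynomial (Fin 4) A) + X 1 • 0 = 2
    simp only [smul_eq_mul]
    ring
  · show dd (q1 A T) (-2 * X 2) - dd (q3 A) 0 = 0
    rw [map_zero, sub_zero, Derivation.leibniz, dd_X, map_neg, dd_two]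
    show (-2 : MvPolynomial (Fin 4) A) • (0 : MvPolynomial (Fin 4) A) + X 2 • -0 = 0
    simp only [smul_eq_mul]
    ring
  · show dd (q1 A T) (-4 * X 3) - dd (q3 A) 0 = 0
    rw [map_zero, sub_zero, Derivation.leibniz, dd_X, map_neg, dd_four]
    show (-4 : MvPolynomial (Fin 4) A) • (0 : MvPolynomial (Fin 4) A) + X 3 • -0 = 0
    simp only [smul_eq_mul]
    ring

/-- an ideal which is stable under the two operators is stable under the partial derivatives -/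
lemma all_stable {T : ℂ} (hT : T ≠ 0) (I0 : Set (MvPolynomial (Fin 4) A))
    (hadd : ∀ p ∈ I0, ∀ q ∈ I0, p + q ∈ I0) (hmul : ∀ p, ∀ q ∈ I0, p * q ∈ I0)
    (hcancel : ∀ q, X 2 * q ∈ I0 → q ∈ I0)
    (s1 : ∀ Q ∈ I0, dd (q1 A T) Q ∈ I0) (s2 : ∀ Q ∈ I0, dd (q2 A T) Q ∈ I0) :
    ∀ i, ∀ Q ∈ I0, pderiv i Q ∈ I0 := by
  have hneg : ∀ p ∈ I0, -p ∈ I0 := fun p hp => by
    have := hmul (-1) p hp
    rwa [neg_one_mul] at this
  have hsub : ∀ p ∈ I0, ∀ q ∈ I0, p - q ∈ I0 := fun p hp q hq => by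
    rw [sub_eq_add_neg]
    exact hadd _ hp _ (hneg _ hq)
  have s3 : ∀ Q ∈ I0, dd (q3 A) Q ∈ I0 := fun Q hQ => by
    rw [← dd_bracket _ _ _ (br3 T)]
    exact hsub _ (s1 _ (s2 _ hQ)) _ (s2 _ (s1 _ hQ))
  have s4 : ∀ Q ∈ I0, dd (q4 A) Q ∈ I0 := fun Q hQ => by
    rw [← dd_bracket _ _ _ (br4 T)]
    exact hsub _ (s1 _ (s3 _ hQ)) _ (s3 _ (s1 _ hQ))
  have hhalf : kk A 2⁻¹ * 2 = 1 := by
    rw [← kk_two, ← kk_mul, inv_mul_cancel₀ two_ne_zero, kk_one]
  have hTT : kk A T⁻¹ * kk A T = 1 := by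
    rw [← kk_mul, inv_mul_cancel₀ hT, kk_one]
  have v1 : ∀ Q, dd (q1 A T) Q = -kk A T * pderiv 0 Q + pderiv 1 Q := by
    intro Q
    rw [dd_apply, Fin.sum_univ_four]
    show -kk A T * pderiv 0 Q + 1 * pderiv 1 Q + 0 * pderiv 2 Q + 0 * pderiv 3 Q = _
    ring
  have v2 : ∀ Q, dd (q2 A T) Q = -kk A T * pderiv 0 Q + X 1 ^ 2 * pderiv 1 Q +
      (-2 * X 1 * X 2) * pderiv 2 Q + -(4 * X 1 * X 3 + 2 * X 2) * pderiv 3 Q := by
    intro Q
    rw [dd_apply, Fin.sum_univ_four]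
    rfl
  have v3 : ∀ Q, dd (q3 A) Q = 2 * X 1 * pderiv 1 Q + -2 * X 2 * pderiv 2 Q +
      -4 * X 3 * pderiv 3 Q := by
    intro Q
    rw [dd_apply, Fin.sum_univ_four]
    show 0 * pderiv 0 Q + 2 * X 1 * pderiv 1 Q + -2 * X 2 * pderiv 2 Q +
      -4 * X 3 * pderiv 3 Q = _
    ring
  have v4 : ∀ Q, dd (q4 A) Q = 2 * pderiv 1 Q := by
    intro Q
    rw [dd_apply, Fin.sum_univ_four]
    show 0 * pderiv 0 Q + 2 * pderiv 1 Q + 0 * pderiv 2 Q + 0 * pderiv 3 Q = _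
    ring
  have t1 : ∀ Q ∈ I0, pderiv 1 Q ∈ I0 := fun Q hQ => by
    have h := hmul (kk A 2⁻¹) _ (s4 Q hQ)
    rwa [v4, ← mul_assoc, hhalf, one_mul] at h
  have t0 : ∀ Q ∈ I0, pderiv 0 Q ∈ I0 := fun Q hQ => by
    have h := hmul (kk A T⁻¹) _ (hsub _ (t1 Q hQ) _ (s1 Q hQ))
    have h1 : kk A T⁻¹ * (pderiv 1 Q - dd (q1 A T) Q) = pderiv 0 Q := by
      rw [v1]
      linear_combination pderiv 0 Q * hTT
    rwa [h1] at h
  have u1 : ∀ Q ∈ I0, X 2 * pderiv 2 Q + 2 * X 3 * pderiv 3 Q ∈ I0 := fun Q hQ => by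
    have h := hmul (kk A 2⁻¹) _ (hsub _ (hmul (2 * X 1) _ (t1 Q hQ)) _ (s3 Q hQ))
    have h1 : kk A 2⁻¹ * (2 * X 1 * pderiv 1 Q - dd (q3 A) Q) =
        X 2 * pderiv 2 Q + 2 * X 3 * pderiv 3 Q := by
      rw [v3]
      linear_combination (X 2 * pderiv 2 Q + 2 * X 3 * pderiv 3 Q) * hhalf
    rwa [h1] at h
  have t3 : ∀ Q ∈ I0, pderiv 3 Q ∈ I0 := fun Q hQ => by
    apply hcancel
    have h := hmul (kk A 2⁻¹) _ (hsub _ (hmul (X 1 ^ 2) _ (t1 Q hQ)) _
      (hadd _ (hadd _ (s2 Q hQ) _ (hmul (kk A T) _ (t0 Q hQ))) _ (hmul (2 * X 1) _ (u1 Q hQ))))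
    have h1 : kk A 2⁻¹ * (X 1 ^ 2 * pderiv 1 Q - (dd (q2 A T) Q + kk A T * pderiv 0 Q +
        2 * X 1 * (X 2 * pderiv 2 Q + 2 * X 3 * pderiv 3 Q))) = X 2 * pderiv 3 Q := by
      rw [v2]
      linear_combination (X 2 * pderiv 3 Q) * hhalf
    rwa [h1] at h
  have t2 : ∀ Q ∈ I0, pderiv 2 Q ∈ I0 := fun Q hQ => by
    apply hcancel
    have h := hsub _ (u1 Q hQ) _ (hmul (2 * X 3) _ (t3 Q hQ))
    rwa [add_sub_cancel_right] at h
  intro i
  fin_cases i
  · exact t0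
  · exact t1
  · exact t2
  · exact t3

/-- Taylor expansion -/
lemma taylor (f : A →ₐ[ℂ] ℂ) (u : Fin 4 → ℂ) (I0 : Set (MvPolynomial (Fin 4) A))
    (h0 : (0 : MvPolynomial (Fin 4) A) ∈ I0)
    (hadd : ∀ p ∈ I0, ∀ q ∈ I0, p + q ∈ I0) (hmul : ∀ p, ∀ q ∈ I0, p * q ∈ I0)
    (hd : ∀ i, ∀ Q ∈ I0, pderiv i Q ∈ I0) (hev : ∀ Q ∈ I0, eval₂ (f : A →+* ℂ) u Q = 0)
    (Q : MvPolynomial (Fin 4) A) (hQ : Q ∈ I0) (v : Fin 4 → ℂ) :
    eval₂ (f : A →+* ℂ) v Q = 0 := by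
  have hc : ∀ Q ∈ I0, (ln (f : A →+* ℂ) u (fun i => v i - u i) Q).coeff 0 = 0 := by
    intro Q hQ
    rw [Polynomial.coeff_zero_eq_eval_zero, ln_eval]
    have h1 : (fun i => u i + (v i - u i) * 0) = u := by
      funext i
      ring
    rw [h1]
    exact hev Q hQ
  have key : ∀ (n : ℕ) (Q : MvPolynomial (Fin 4) A), Q ∈ I0 →
      (ln (f : A →+* ℂ) u (fun i => v i - u i) Q).natDegree ≤ n →
      ln (f : A →+* ℂ) u (fun i => v i - u i) Q = 0 := by
    intro n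
    induction n with
    | zero =>
      intro Q hQ hn
      have h1 := Polynomial.eq_C_of_natDegree_eq_zero (Nat.le_zero.1 hn)
      rw [h1, hc Q hQ, map_zero]
    | succ n ih =>
      intro Q hQ hn
      have hs : ∀ s : Finset (Fin 4), ∑ i ∈ s, kk A (v i - u i) * pderiv i Q ∈ I0 := by
        intro s
        classical
        induction s using Finset.induction_on with
        | empty =>
          rw [Finset.sum_empty]
          exact h0
        | insert i s hi ih2 =>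
          rw [Finset.sum_insert hi]
          exact hadd _ (hmul _ _ (hd i Q hQ)) _ ih2
      obtain ⟨Q1, hQ1⟩ : ∃ Q1, Q1 = ∑ i, kk A (v i - u i) * pderiv i Q := ⟨_, rfl⟩
      have hQ1I : Q1 ∈ I0 := by
        rw [hQ1]
        exact hs _
      have h1 : Polynomial.derivative (ln (f : A →+* ℂ) u (fun i => v i - u i) Q) =
          ln (f : A →+* ℂ) u (fun i => v i - u i) Q1 := by
        rw [ln_derivative, hQ1, ln, eval₂_sum]
        refine Finset.sum_congr rfl fun i _ => ?_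
        rw [eval₂_mul, kk, eval₂_C, RingHom.comp_apply, RingHom.coe_coe, AlgHom.commutes]
        rfl
      have h5 : ln (f : A →+* ℂ) u (fun i => v i - u i) Q1 = 0 := by
        apply ih Q1 hQ1I
        rw [← h1]
        exact (Polynomial.natDegree_derivative_le _).trans (by omega)
      have h6 := Polynomial.derivative_eq_zero.1 (h1.trans h5)
      have h7 := Polynomial.eq_C_of_natDegree_eq_zero h6
      rw [h7, hc Q hQ, map_zero]
  have h1 := key _ Q hQ le_rfl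
  have h2 := congrArg (Polynomial.eval 1) h1
  rw [ln_eval, Polynomial.eval_zero] at h2
  have h3 : (fun i => u i + (v i - u i) * 1) = v := by
    funext i
    ring
  rwa [h3] at h2

end der

end Pool.Agent.Y317.K
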